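import Mathlib
import Pool.Agent.R268.MBasis

/-!
# MP_810de6: a Banach space with an extended M-basis which contains `ℓ^∞`

More generally a Banach space `X` is isomorphic to a subspace of a Banach space with an extended
M-basis if and only if it has an injective bounded linear map into some `c₀(Γ)`; and then
`X × ℓ¹(Λ)` has an extended M-basis for some index set `Λ`.
-/

set_option autoImplicit false

open Filter Topology
open scoped ENNReal ZeroAtInfty

namespace Pool.Agent.Results.MP_810de6_an.LinftyInMBasisSpace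

open Pool.Agent.R268.MBasis (IsExtendedMBasis)

universe u

/-- `E` has an extended M-basis (with an arbitrary index set). -/
def HasExtendedMBasis (𝕜 : Type) [RCLike 𝕜] (E : Type u) [NormedAddCommGroup E]
    [NormedSpace 𝕜 E] : Prop :=
  ∃ (I : Type u) (x : I → E) (f : I → StrongDual 𝕜 E), IsExtendedMBasis 𝕜 x f

/-- `X` is isomorphic to a subspace of `E`: there is a bounded linear map `X → E` which is bounded
below. -/
def Embeds (𝕜 : Type) [RCLike 𝕜] (X E : Type u) [NormedAddCommGroup X] [NormedSpace 𝕜 X]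
    [NormedAddCommGroup E] [NormedSpace 𝕜 E] : Prop :=
  ∃ (J : X →L[𝕜] E) (c : ℝ), 0 < c ∧ ∀ v, c * ‖v‖ ≤ ‖J v‖

/-- There is an injective bounded linear map from `X` into `c₀(Γ)` for some discrete space `Γ`. -/
def InjectsIntoCzero (𝕜 : Type) [RCLike 𝕜] (X : Type u) [NormedAddCommGroup X]
    [NormedSpace 𝕜 X] : Prop :=
  ∃ (Γ : Type u) (_ : TopologicalSpace Γ) (_ : DiscreteTopology Γ) (T : X →L[𝕜] C₀(Γ, 𝕜)),
    Function.Injective T

section

variable {𝕜 : Type} [RCLike 𝕜]

theorem norm_apply_le {Γ : Type u} [TopologicalSpace Γ] (x : C₀(Γ, 𝕜)) (k : Γ) : ‖x k‖ ≤ ‖x‖ := by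
  rw [← ZeroAtInftyContinuousMap.norm_toBCF_eq_norm]
  exact x.toBCF.norm_coe_le_norm k

theorem norm_le_of_forall {Γ : Type u} [TopologicalSpace Γ] {x : C₀(Γ, 𝕜)} {C : ℝ} (hC : 0 ≤ C)
    (h : ∀ k, ‖x k‖ ≤ C) : ‖x‖ ≤ C := by
  rw [← ZeroAtInftyContinuousMap.norm_toBCF_eq_norm]
  exact (BoundedContinuousFunction.norm_le hC).2 h

/-- evaluation at a point of `Γ` -/
noncomputable def ev {Γ : Type u} [TopologicalSpace Γ] (γ : Γ) : StrongDual 𝕜 C₀(Γ, 𝕜) :=
  LinearMap.mkContinuous
    { toFun := fun x => x γ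
      map_add' := fun _ _ => rfl
      map_smul' := fun _ _ => rfl } 1 (fun x => by rw [one_mul]; exact norm_apply_le x γ)

theorem ev_apply {Γ : Type u} [TopologicalSpace Γ] (γ : Γ) (x : C₀(Γ, 𝕜)) : ev γ x = x γ := rfl

theorem tendsto_cofinite {Γ : Type u} [TopologicalSpace Γ] [DiscreteTopology Γ] (x : C₀(Γ, 𝕜)) :
    Tendsto (fun γ => x γ) cofinite (𝓝 0) := by
  have h := x.zero_at_infty'
  rwa [cocompact_eq_cofinite] at h

/-- A family of functionals which is bounded and tends to zero pointwise gives a map to `c₀`. -/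
theorem exists_map {X : Type u} [NormedAddCommGroup X] [NormedSpace 𝕜 X] {Γ : Type u}
    (g : Γ → StrongDual 𝕜 X) (M : ℝ) (hM : ∀ γ, ‖g γ‖ ≤ M)
    (hg : ∀ x, Tendsto (fun γ => g γ x) cofinite (𝓝 0)) (htot : ∀ x, (∀ γ, g γ x = 0) → x = 0) :
    InjectsIntoCzero 𝕜 X := by
  letI : TopologicalSpace Γ := ⊥
  haveI : DiscreteTopology Γ := ⟨rfl⟩
  let T : X →ₗ[𝕜] C₀(Γ, 𝕜) :=
    { toFun := fun x =>
        { toFun := fun γ => g γ x
          continuous_toFun := continuous_of_discreteTopology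
          zero_at_infty' := by
            rw [cocompact_eq_cofinite]
            exact hg x }
      map_add' := by
        intro x y
        ext γ
        exact map_add (g γ) x y
      map_smul' := by
        intro c x
        ext γ
        exact map_smul (g γ) c x }
  have hT : ∀ x γ, T x γ = g γ x := fun _ _ => rfl
  refine ⟨Γ, inferInstance, inferInstance, T.mkContinuous |M| (fun x => ?_), ?_⟩
  · refine norm_le_of_forall (by positivity) (fun γ => ?_)
    rw [hT]
    exact ((g γ).le_opNorm x).trans (mul_le_mul_of_nonneg_right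
      ((hM γ).trans (le_abs_self M)) (norm_nonneg _))
  · intro x y hxy
    rw [← sub_eq_zero]
    refine htot _ (fun γ => ?_)
    have h1 : T x = T y := hxy
    rw [map_sub, ← hT, ← hT, h1, sub_self]

theorem injects_of_embeds {X E : Type u} [NormedAddCommGroup X] [NormedSpace 𝕜 X]
    [NormedAddCommGroup E] [NormedSpace 𝕜 E] (hE : HasExtendedMBasis 𝕜 E)
    (h : Embeds 𝕜 X E) : InjectsIntoCzero 𝕜 X := by
  classical
  obtain ⟨I, x, f, hf⟩ := hE
  obtain ⟨J, c, hc, hJ⟩ := h
  have hf0 : ∀ i, f i ≠ 0 := by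
    intro i h0
    have := hf.biorth_self i
    rw [h0] at this
    simp at this
  have hpos : ∀ i, 0 < ‖f i‖ := fun i => norm_pos_iff.2 (hf0 i)
  let g : I → StrongDual 𝕜 X := fun i => (((‖f i‖⁻¹ : ℝ) : 𝕜)) • (f i).comp J
  have hga : ∀ i v, g i v = ((‖f i‖⁻¹ : ℝ) : 𝕜) * f i (J v) := fun _ _ => rfl
  refine exists_map g ‖J‖ (fun i => ?_) (fun v => ?_) (fun v hv => ?_)
  · refine ContinuousLinearMap.opNorm_le_bound _ (norm_nonneg _) (fun v => ?_)
    rw [hga, norm_mul, RCLike.norm_ofReal, abs_of_pos (inv_pos.2 (hpos i)),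
      inv_mul_le_iff₀ (hpos i)]
    exact ((f i).le_opNorm _).trans
      (mul_le_mul_of_nonneg_left (J.le_opNorm v) (hpos i).le)
  · rw [Metric.tendsto_nhds]
    intro ε hε
    have h1 : J v ∈ closure (Submodule.span 𝕜 (Set.range x) : Set E) := by
      rw [hf.complete]; exact Set.mem_univ _
    obtain ⟨w, hw, hwd⟩ := Metric.mem_closure_iff.1 h1 ε hε
    rw [SetLike.mem_coe, Finsupp.mem_span_range_iff_exists_finsupp] at hw
    obtain ⟨a, ha⟩ := hw
    rw [Filter.eventually_cofinite]
    refine (a.support.finite_toSet).subset (fun i hi => ?_)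
    by_contra hcon
    apply hi
    have hfw : f i w = 0 := by
      rw [← ha, Finsupp.sum, map_sum]
      refine Finset.sum_eq_zero (fun j hj => ?_)
      rw [map_smul, hf.biorth_ne j i (fun h => hcon (by rw [← h]; exact hj)), smul_zero]
    rw [dist_zero_right, hga, norm_mul, RCLike.norm_ofReal, abs_of_pos (inv_pos.2 (hpos i)),
      inv_mul_lt_iff₀ (hpos i)]
    have h2 : f i (J v) = f i (J v - w) := by rw [map_sub, hfw, sub_zero]
    rw [h2]
    refine ((f i).le_opNorm _).trans_lt ?_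
    rw [dist_eq_norm] at hwd
    exact mul_lt_mul_of_pos_left hwd (hpos i)
  · have h1 : J v = 0 := by
      refine hf.total _ (fun i => ?_)
      have h2 := hv i
      rw [hga, mul_eq_zero] at h2
      rcases h2 with h2 | h2
      · rw [RCLike.ofReal_eq_zero] at h2
        exact absurd h2 (inv_pos.2 (hpos i)).ne'
      · exact h2
    have h3 := hJ v
    rw [h1, norm_zero] at h3
    have h4 : ‖v‖ ≤ 0 := by
      by_contra hcon
      push Not at hcon
      have := mul_pos hc hcon
      linarith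
    exact norm_le_zero_iff.1 h4

theorem basis_of_injects {X : Type u} [NormedAddCommGroup X] [NormedSpace 𝕜 X]
    (h : InjectsIntoCzero 𝕜 X) :
    ∃ Λ : Type u, HasExtendedMBasis 𝕜 (X × lp (fun _ : Λ => 𝕜) 1) := by
  obtain ⟨Γ, _, _, T, hT⟩ := h
  let g : Γ → StrongDual 𝕜 X := fun γ => (ev γ).comp T
  have hga : ∀ γ v, g γ v = T v γ := fun _ _ => rfl
  have hM : ∀ γ, ‖g γ‖ ≤ ‖T‖ := fun γ =>
    ContinuousLinearMap.opNorm_le_bound _ T.opNorm_nonneg (fun v => by
      rw [hga]
      exact (norm_apply_le _ _).trans (T.le_opNorm v))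
  refine ⟨Pool.Agent.R268.MBasis.Idx X Γ, _, _, _,
    Pool.Agent.R268.MBasis.isExtendedMBasis g ‖T‖ hM (fun v => tendsto_cofinite (T v)) ?_⟩
  intro v hv
  apply hT
  rw [map_zero]
  ext γ
  exact hv γ

/-- `ℓ^∞` injects into `c₀`. -/
theorem injects_linfty : InjectsIntoCzero 𝕜 (lp (fun _ : ℕ => 𝕜) ∞) := by
  let g : ℕ → StrongDual 𝕜 (lp (fun _ : ℕ => 𝕜) ∞) := fun n =>
    LinearMap.mkContinuous
      { toFun := fun x => (((1 / ((n : ℝ) + 1) : ℝ) : 𝕜)) * x n
        map_add' := by
          intro x y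
          rw [lp.coeFn_add, Pi.add_apply, mul_add]
        map_smul' := by
          intro c x
          rw [lp.coeFn_smul, Pi.smul_apply, smul_eq_mul, RingHom.id_apply, smul_eq_mul]
          ring } (1 / ((n : ℝ) + 1)) (by
      intro x
      change ‖(((1 / ((n : ℝ) + 1) : ℝ) : 𝕜)) * x n‖ ≤ _
      rw [norm_mul, RCLike.norm_ofReal, abs_of_pos (by positivity)]
      exact mul_le_mul_of_nonneg_left (lp.norm_apply_le_norm (by simp) x n) (by positivity))
  have hga : ∀ (n : ℕ) (x : lp (fun _ : ℕ => 𝕜) ∞),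
      g n x = (((1 / ((n : ℝ) + 1) : ℝ) : 𝕜)) * x n := fun _ _ => rfl
  refine exists_map g 1 (fun n => ?_) (fun x => ?_) (fun x hx => ?_)
  · refine (LinearMap.mkContinuous_norm_le _ (by positivity) _).trans ?_
    rw [div_le_one (by positivity)]
    have : (0 : ℝ) ≤ n := Nat.cast_nonneg n
    linarith
  · rw [Nat.cofinite_eq_atTop, tendsto_zero_iff_norm_tendsto_zero]
    have h0 := (tendsto_one_div_add_atTop_nhds_zero_nat (𝕜 := ℝ)).mul_const ‖x‖
    rw [zero_mul] at h0
    refine squeeze_zero (fun n => norm_nonneg _) (fun n => ?_) h0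
    rw [hga, norm_mul, RCLike.norm_ofReal, abs_of_pos (by positivity)]
    exact mul_le_mul_of_nonneg_left (lp.norm_apply_le_norm (by simp) x n) (by positivity)
  · ext n
    have h1 := hx n
    rw [hga, mul_eq_zero] at h1
    rcases h1 with h1 | h1
    · rw [RCLike.ofReal_eq_zero] at h1
      exact absurd h1 (by positivity)
    · exact h1

end

/-- **Answer to Q1 (yes), with the exact class of subspaces.** Let `𝕜` be `ℝ` or `ℂ`.
(1) There is a Banach space `E` with an extended M-basis which has a complemented closed subspace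
`G` linearly homeomorphic to `ℓ^∞`.
(2) For every Banach space `X` the following are equivalent: `X` is isomorphic to a subspace of a
Banach space with an extended M-basis; there is an injective bounded linear map of `X` into some
`c₀(Γ)`; for some index set `Λ` the space `X × ℓ¹(Λ)` has an extended M-basis. -/
theorem result (𝕜 : Type) [RCLike 𝕜] :
    (∃ (E : Type) (_ : NormedAddCommGroup E) (_ : NormedSpace 𝕜 E) (_ : CompleteSpace E),
      HasExtendedMBasis 𝕜 E ∧ ∃ G : Submodule 𝕜 E, IsClosed (G : Set E) ∧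
        G.ClosedComplemented ∧ Nonempty (G ≃L[𝕜] lp (fun _ : ℕ => 𝕜) ∞)) ∧
    (∀ (X : Type u) [NormedAddCommGroup X] [NormedSpace 𝕜 X] [CompleteSpace X],
      [∃ (E : Type u) (_ : NormedAddCommGroup E) (_ : NormedSpace 𝕜 E) (_ : CompleteSpace E),
          HasExtendedMBasis 𝕜 E ∧ Embeds 𝕜 X E,
        InjectsIntoCzero 𝕜 X,
        ∃ Λ : Type u, HasExtendedMBasis 𝕜 (X × lp (fun _ : Λ => 𝕜) 1)].TFAE) := by
  constructor
  · obtain ⟨Λ, hΛ⟩ := basis_of_injects (𝕜 := 𝕜) injects_linfty
    refine ⟨lp (fun _ : ℕ => 𝕜) ∞ × lp (fun _ : Λ => 𝕜) 1, inferInstance, inferInstance,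
      inferInstance, hΛ, ?_⟩
    let P : (lp (fun _ : ℕ => 𝕜) ∞ × lp (fun _ : Λ => 𝕜) 1) →L[𝕜] lp (fun _ : Λ => 𝕜) 1 :=
      ContinuousLinearMap.snd 𝕜 _ _
    let G : Submodule 𝕜 (lp (fun _ : ℕ => 𝕜) ∞ × lp (fun _ : Λ => 𝕜) 1) := P.ker
    have hG : ∀ v, v ∈ G ↔ v.2 = 0 := fun v => Iff.rfl
    refine ⟨G, ?_, ?_, ⟨?_⟩⟩
    · exact (isClosed_singleton (x := (0 : lp (fun _ : Λ => 𝕜) 1))).preimage P.continuous
    · refine ⟨((ContinuousLinearMap.inl 𝕜 _ _).comp (ContinuousLinearMap.fst 𝕜 _ _)).codRestrict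
        G (fun v => rfl), ?_⟩
      rintro ⟨⟨a, b⟩, hb⟩
      have hb' : b = 0 := hb
      subst hb'
      rfl
    · exact
        { toFun := fun v => v.1.1
          map_add' := fun _ _ => rfl
          map_smul' := fun _ _ => rfl
          invFun := fun a => ⟨(a, 0), rfl⟩
          left_inv := by
            rintro ⟨⟨a, b⟩, hb⟩
            have hb' : b = 0 := hb
            subst hb'
            rfl
          right_inv := fun _ => rfl
          continuous_toFun := continuous_fst.comp continuous_subtype_val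
          continuous_invFun :=
            Continuous.subtype_mk (Continuous.prodMk continuous_id continuous_const) _ }
  · intro X _ _ _
    tfae_have 1 → 2 := by
      rintro ⟨E, _, _, _, h1, h2⟩
      exact injects_of_embeds h1 h2
    tfae_have 2 → 3 := basis_of_injects
    tfae_have 3 → 1 := by
      rintro ⟨Λ, hΛ⟩
      refine ⟨_, inferInstance, inferInstance, inferInstance, hΛ,
        ContinuousLinearMap.inl 𝕜 _ _, 1, one_pos, fun v => ?_⟩
      rw [one_mul]
      change ‖v‖ ≤ ‖((v, 0) : X × lp (fun _ : Λ => 𝕜) 1)‖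
      rw [Prod.norm_def]
      exact le_max_left _ _
    tfae_finish

end Pool.Agent.Results.MP_810de6_an.LinftyInMBasisSpace
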